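import Mathlib

/-!
# Degrees of the intersection of a Galois number field with a subfield
-/

set_option autoImplicit false

open Module IntermediateField

namespace Pool.Agent.helper461_mg

/-- degrees of an intersection with a Galois subfield -/
lemma finrank_inf {L : Type} [Field L] [NumberField L] (A M : IntermediateField ℚ L)
    [IsGalois ℚ A] :
    finrank ℚ A * finrank ℚ M ≤ finrank ℚ L * finrank ℚ (A ⊓ M : IntermediateField ℚ L) := by
  set B : IntermediateField ℚ L := A ⊓ M with hB
  have hA : B ≤ A := inf_le_left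
  have hM : B ≤ M := inf_le_right
  let A1 : IntermediateField B L := extendScalars hA
  let M1 : IntermediateField B L := extendScalars hM
  have hinf : A1 ⊓ M1 = ⊥ := by
    show extendScalars hA ⊓ extendScalars hM = ⊥
    rw [extendScalars_inf]
    exact IntermediateField.extendScalars_self B
  let eA : A ≃ₐ[ℚ] A1 :=
    { toFun := fun x => ⟨x.1, x.2⟩
      invFun := fun x => ⟨x.1, x.2⟩
      left_inv := fun _ => rfl
      right_inv := fun _ => rfl
      map_mul' := fun _ _ => rfl
      map_add' := fun _ _ => rfl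
      commutes' := fun _ => rfl }
  let eM : M ≃ₐ[ℚ] M1 :=
    { toFun := fun x => ⟨x.1, x.2⟩
      invFun := fun x => ⟨x.1, x.2⟩
      left_inv := fun _ => rfl
      right_inv := fun _ => rfl
      map_mul' := fun _ _ => rfl
      map_add' := fun _ _ => rfl
      commutes' := fun _ => rfl }
  haveI : IsGalois ℚ A1 := IsGalois.of_algEquiv eA
  haveI : IsGalois B A1 := IsGalois.tower_top_of_isGalois ℚ B A1
  haveI : FiniteDimensional B L := FiniteDimensional.right ℚ B L
  haveI : Module.Free B A1 := Module.Free.of_divisionRing B A1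
  haveI : Module.Free B M1 := Module.Free.of_divisionRing B M1
  haveI : Module.Free B ↥(A1 ⊔ M1) := Module.Free.of_divisionRing B ↥(A1 ⊔ M1)
  haveI : Module.Free ↥(A1 ⊔ M1) L := Module.Free.of_divisionRing ↥(A1 ⊔ M1) L
  haveI : Module.Free ℚ B := Module.Free.of_divisionRing ℚ B
  have hd : A1.LinearDisjoint M1 := LinearDisjoint.of_inf_eq_bot hinf
  have h1 := hd.finrank_sup
  have h2 : finrank B ↥(A1 ⊔ M1) * finrank ↥(A1 ⊔ M1) L = finrank B L :=
    Module.finrank_mul_finrank B ↥(A1 ⊔ M1) L
  have h3 : 0 < finrank ↥(A1 ⊔ M1) L := finrank_pos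
  have h4 : finrank B A1 * finrank B M1 ≤ finrank B L := by
    rw [← h1, ← h2]
    exact Nat.le_mul_of_pos_right _ h3
  have h5 : finrank ℚ B * finrank B A1 = finrank ℚ A := by
    rw [Module.finrank_mul_finrank ℚ B A1]
    exact eA.toLinearEquiv.finrank_eq.symm
  have h6 : finrank ℚ B * finrank B M1 = finrank ℚ M := by
    rw [Module.finrank_mul_finrank ℚ B M1]
    exact eM.toLinearEquiv.finrank_eq.symm
  have h7 : finrank ℚ B * finrank B L = finrank ℚ L := Module.finrank_mul_finrank ℚ B L
  rw [← h5, ← h6, ← h7]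
  calc finrank ℚ B * finrank B A1 * (finrank ℚ B * finrank B M1)
      = finrank ℚ B * (finrank B A1 * finrank B M1) * finrank ℚ B := by ring
    _ ≤ finrank ℚ B * finrank B L * finrank ℚ B :=
        Nat.mul_le_mul_right _ (Nat.mul_le_mul_left _ h4)

/-- subfields of a Galois number field and of its extensions -/
lemma galois_sub {k L : Type} [Field k] [NumberField k] [Field L] [NumberField L] [Algebra k L]
    [IsGalois ℚ k] (M : IntermediateField ℚ L) :
    ∃ (F : IntermediateField ℚ M) (F' : IntermediateField ℚ k), Nonempty (F ≃ₐ[ℚ] F') ∧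
      finrank F M ≤ finrank k L ∧ finrank F' k ≤ finrank M L := by
  let f : k →ₐ[ℚ] L := IsScalarTower.toAlgHom ℚ k L
  let K0 : IntermediateField ℚ L := f.fieldRange
  let e0 : k ≃ₐ[ℚ] K0 := AlgEquiv.ofInjectiveField f
  haveI : IsGalois ℚ K0 := IsGalois.of_algEquiv e0
  set B : IntermediateField ℚ L := K0 ⊓ M with hB
  have hBM : B ≤ M := inf_le_right
  have hBK : B ≤ K0 := inf_le_left
  let F : IntermediateField ℚ M := IntermediateField.restrict hBM
  let F' : IntermediateField ℚ k := B.comap f
  let e1 : B ≃ₐ[ℚ] F := IntermediateField.restrictAlgEquiv hBM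
  let g : F' →ₐ[ℚ] B := (f.comp F'.val).codRestrict B.toSubalgebra (fun x => x.2)
  have hg : Function.Bijective g := by
    constructor
    · exact g.toRingHom.injective
    · intro b
      obtain ⟨a, ha⟩ := hBK b.2
      have ha' : f a = b.1 := ha
      refine ⟨⟨a, ?_⟩, ?_⟩
      · show f a ∈ B
        rw [ha']
        exact b.2
      · exact Subtype.ext ha'
  let e2 : F' ≃ₐ[ℚ] B := AlgEquiv.ofBijective g hg
  have d1 : finrank ℚ F = finrank ℚ B := e1.toLinearEquiv.finrank_eq.symm
  have d2 : finrank ℚ F' = finrank ℚ B := e2.toLinearEquiv.finrank_eq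
  have d3 : finrank ℚ k = finrank ℚ K0 := e0.toLinearEquiv.finrank_eq
  have key := finrank_inf K0 M
  rw [← hB, ← d3] at key
  have h1 : finrank ℚ F * finrank F M = finrank ℚ M := Module.finrank_mul_finrank ℚ F M
  have h2 : finrank ℚ k * finrank k L = finrank ℚ L := Module.finrank_mul_finrank ℚ k L
  have h3 : finrank ℚ F' * finrank F' k = finrank ℚ k := Module.finrank_mul_finrank ℚ F' k
  have h4 : finrank ℚ M * finrank M L = finrank ℚ L := Module.finrank_mul_finrank ℚ M L
  have p1 : 0 < finrank ℚ B := finrank_pos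
  have p2 : 0 < finrank ℚ k := finrank_pos
  have p3 : 0 < finrank ℚ M := finrank_pos
  refine ⟨F, F', ⟨e1.symm.trans e2.symm⟩, ?_, ?_⟩
  · refine Nat.le_of_mul_le_mul_left ?_ (Nat.mul_pos p2 p1)
    calc finrank ℚ k * finrank ℚ B * finrank F M
        = finrank ℚ k * (finrank ℚ F * finrank F M) := by rw [d1]; ring
      _ = finrank ℚ k * finrank ℚ M := by rw [h1]
      _ ≤ finrank ℚ L * finrank ℚ B := key
      _ = finrank ℚ k * finrank ℚ B * finrank k L := by rw [← h2]; ring
  · refine Nat.le_of_mul_le_mul_left ?_ (Nat.mul_pos p3 p1)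
    calc finrank ℚ M * finrank ℚ B * finrank F' k
        = (finrank ℚ F' * finrank F' k) * finrank ℚ M := by rw [d2]; ring
      _ = finrank ℚ k * finrank ℚ M := by rw [h3]
      _ ≤ finrank ℚ L * finrank ℚ B := key
      _ = finrank ℚ M * finrank ℚ B * finrank M L := by rw [← h4]; ring

end Pool.Agent.helper461_mg
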