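import Pool.Agent.Y399.MG.H
import Pool.Agent.helper461_mg.Gal

/-!
# Eigenvalues over number fields of large discriminant
-/

set_option autoImplicit false

open Finset Polynomial Module NumberField IntermediateField

namespace Pool.Agent.helper461_mg

open Pool.Agent.H388SL Pool.Agent.Y399.RD Pool.Agent.H225R3.Marg Pool.Agent.Y399.MG

/-- the lower bound -/
noncomputable def bd (T : ℝ) : ℝ := (Real.log (Real.log (16 + T)) / Real.log (16 + T)) ^ 3

lemma bd_pos {T : ℝ} (hT : 0 < T) : 0 < bd T := by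
  have h1 : (1 : ℝ) < Real.log (16 + T) := by
    rw [Real.lt_log_iff_exp_lt (by linarith)]
    have := Real.exp_one_lt_d9
    linarith
  have h2 : 0 < Real.log (Real.log (16 + T)) := Real.log_pos h1
  unfold bd
  positivity

/-- the discriminant of a field which has a subfield with large discriminant -/
lemma log_disc {M : Type} [Field M] [NumberField M] (F : IntermediateField ℚ M) (n : ℕ) (δ : ℝ)
    (hδ : 0 < δ) (hn : finrank F M ≤ n)
    (hd : (δ * finrank ℚ F) ^ finrank ℚ F ≤ |(discr F : ℝ)|) :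
    finrank ℚ M * Real.log (finrank ℚ M / (n / δ)) ≤ Real.log |(discr M : ℝ)| := by
  have hr1 : 0 < finrank F M := finrank_pos
  have hn0 : 0 < n := hr1.trans_le hn
  have hnR : (0 : ℝ) < n := by exact_mod_cast hn0
  have htow : finrank ℚ F * finrank F M = finrank ℚ M := Module.finrank_mul_finrank ℚ F M
  have hF0 : (0 : ℝ) < finrank ℚ F := by exact_mod_cast (finrank_pos : 0 < finrank ℚ F)
  have hM0 : (0 : ℝ) < finrank ℚ M := by exact_mod_cast (finrank_pos : 0 < finrank ℚ M)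
  have hrn : (finrank F M : ℝ) ≤ n := by exact_mod_cast hn
  have h2 : ((δ * finrank ℚ F) ^ finrank ℚ F) ^ finrank F M ≤ |(discr M : ℝ)| :=
    (pow_le_pow_left₀ (by positivity) hd _).trans discr_tower
  have h3 : Real.log (((δ * finrank ℚ F) ^ finrank ℚ F) ^ finrank F M) ≤
      Real.log |(discr M : ℝ)| := Real.log_le_log (by positivity) h2
  refine le_trans ?_ h3
  rw [← pow_mul, htow, Real.log_pow]
  refine mul_le_mul_of_nonneg_left (Real.log_le_log (by positivity) ?_) (Nat.cast_nonneg _)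
  rw [← htow]
  push_cast
  rw [div_div_eq_mul_div, div_le_iff₀ hnR]
  nlinarith [mul_pos hF0 hδ, mul_le_mul_of_nonneg_left hrn (mul_pos hF0 hδ).le]

/-- the discriminants of isomorphic fields -/
lemma disc_equiv {F F' : Type} [Field F] [NumberField F] [Field F'] [NumberField F']
    (e : F ≃ₐ[ℚ] F') (δ : ℝ) (h : (δ * finrank ℚ F') ^ finrank ℚ F' ≤ |(discr F' : ℝ)|) :
    (δ * finrank ℚ F) ^ finrank ℚ F ≤ |(discr F : ℝ)| := by
  have h1 : finrank ℚ F = finrank ℚ F' := e.toLinearEquiv.finrank_eq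
  have h2 : discr F = discr F' := discr_eq_discr_of_algEquiv F e
  rw [h1, h2]
  exact h

/-- **The lower bound for Galois base fields.** -/
theorem lowerB : ∃ c : ℝ, 0 < c ∧ ∀ (k L : Type) [Field k] [NumberField k] [Field L] [NumberField L]
    [Algebra k L] (S : Finset (k →+* ℂ)) (x : L) (s n : ℕ) (δ R : ℝ), x ≠ 0 → IsIntegral ℤ x →
    (∀ m : ℕ, 0 < m → x ^ m ≠ 1) → 1 ≤ R →
    (∀ τ : L →+* ℂ, τ.comp (algebraMap k L) ∉ S → ‖τ x‖ ≤ 1) → (∀ τ : L →+* ℂ, ‖τ x‖ ≤ R) →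
    S.card ≤ s → finrank k L ≤ n → IsGalois ℚ k → 0 < δ →
    (∀ F : IntermediateField ℚ k, finrank F k ≤ s * n →
      (δ * finrank ℚ F) ^ finrank ℚ F ≤ |(discr F : ℝ)|) →
    c * (Real.log (Real.log (16 + n / δ)) / Real.log (16 + n / δ)) ^ 3 ≤
      (s * n : ℕ) * Real.log R := by
  obtain ⟨c, hc, hfield⟩ := field_bound
  refine ⟨c, hc, ?_⟩
  intro k L _ _ _ _ _ S x s n δ R hx0 hxi hroot hR hout hin hs hn hG hδ hdisc
  obtain ⟨M, β, h1, h2, h3, h4, h5⟩ := transfer S x s n R hx0 hxi hroot hR hout hin hs hn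
  obtain ⟨F, F', ⟨e⟩, h6, h7⟩ := galois_sub (k := k) M
  have hF := disc_equiv e δ (hdisc F' (h7.trans h1))
  have h8 := log_disc F n δ hδ (h6.trans hn) hF
  have hn0 : 0 < n := lt_of_lt_of_le finrank_pos hn
  have hT0 : (0 : ℝ) < n / δ := by
    have : (0 : ℝ) < n := by exact_mod_cast hn0
    positivity
  have hgen : ℚ⟮(β : M)⟯ = ⊤ := by
    have := h4 1 one_pos
    rwa [pow_one] at this
  have hLD : finrank ℚ M * Real.log (finrank ℚ M / (n / δ)) ≤ LD (β : M) :=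
    h8.trans (log_discr_le β hgen)
  have hβ0 : (β : M) ≠ 0 := fun h => h2 (RingOfIntegers.coe_eq_zero_iff.mp h)
  have hβr : ∀ m : ℕ, 0 < m → (β : M) ^ m ≠ 1 := fun m hm h =>
    h3 m hm (RingOfIntegers.ext (by simpa using h))
  have h9 := hfield M (β : M) β.isIntegral_coe hβ0 hβr
    (fun i hi => cinj_of_adjoin (h4 i hi)) (n / δ) hT0 hLD
  exact h9.trans h5

/-- The condition on the number field. -/
def Large (δ : ℝ) (s n : ℕ) (k : Type) [Field k] [NumberField k] (S : Finset (k →+* ℂ)) : Prop :=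
  ((∀ σ ∈ S, ∀ σ' ∈ S, σ ≠ σ' → s * n ^ 2 * finrank ℚ k < pairDeg σ σ') ∧
    (δ * finrank ℚ k) ^ finrank ℚ k ≤ |(discr k : ℝ)|) ∨
  (IsGalois ℚ k ∧ ∀ F : IntermediateField ℚ k, finrank F k ≤ s * n →
    (δ * finrank ℚ F) ^ finrank ℚ F ≤ |(discr F : ℝ)|)

theorem gapD : ∃ c : ℝ, 0 < c ∧ ∀ (k : Type) [Field k] [NumberField k] (n s : ℕ)
    (S : Finset (k →+* ℂ)) (A : Matrix (Fin n) (Fin n) (𝓞 k)) (δ : ℝ), 0 < δ → S.card ≤ s →
    Large δ s n k S → IsUnit A →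
    (∀ σ : k →+* ℂ, σ ∉ S → ∀ l : ℂ, ((emb σ).mapMatrix A).charpoly.IsRoot l → ‖l‖ ≤ 1) →
    (∀ N : ℕ, 0 < N → ¬ IsNilpotent (A ^ N - 1)) →
    ∃ σ ∈ S, ∃ l : ℂ, ((emb σ).mapMatrix A).charpoly.IsRoot l ∧ 1 < ‖l‖ ∧
      c * bd (n / δ) ≤ (s * n : ℕ) * Real.log ‖l‖ := by
  obtain ⟨c1, hc1, h1⟩ := lower
  obtain ⟨c2, hc2, h2⟩ := lowerB
  refine ⟨min c1 c2, lt_min hc1 hc2, ?_⟩
  intro k _ _ n s S A δ hδ hs hL hA hout hnil
  refine gap_of k n S A (fun R => min c1 c2 * bd (n / δ) ≤ (s * n : ℕ) * Real.log R) ?_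
    hA hout hnil
  intro L _ _ _ x R hx0 hxi hroot hR hout' hin hdeg
  have hn0 : 0 < n := lt_of_lt_of_le finrank_pos hdeg
  have hT0 : (0 : ℝ) < n / δ := by
    have : (0 : ℝ) < n := by exact_mod_cast hn0
    positivity
  have hb := bd_pos hT0
  rcases hL with ⟨hp, hd⟩ | ⟨hG, hd⟩
  · exact (mul_le_mul_of_nonneg_right (min_le_left _ _) hb.le).trans
      (h1 k L S x s n δ R hx0 hxi hroot hR hout' hin hs hdeg hp hδ hd)
  · exact (mul_le_mul_of_nonneg_right (min_le_right _ _) hb.le).trans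
      (h2 k L S x s n δ R hx0 hxi hroot hR hout' hin hs hdeg hG hδ hd)

end Pool.Agent.helper461_mg
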