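import Pool.Agent.helper461_mg.Disc

/-!
# Base fields with a subfield on which the noncompact embeddings agree
-/

set_option autoImplicit false

open Finset Polynomial Module NumberField IntermediateField

namespace Pool.Agent.helper461_mg

open Pool.Agent.H388SL Pool.Agent.Y399.RD Pool.Agent.H225R3.Marg Pool.Agent.Y399.MG

lemma exp_exp_one : Real.exp (Real.exp 1) ≤ 16 := by
  have h1 : Real.exp 1 ≤ 11 / 4 := by
    have := Real.exp_one_lt_d9
    linarith
  have h2 : Real.exp (11 / 4) ^ 4 = Real.exp 1 ^ 11 := by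
    rw [← Real.exp_nat_mul, ← Real.exp_nat_mul]
    norm_num
  have h3 : Real.exp 1 ^ 11 ≤ (2.7182818286 : ℝ) ^ 11 :=
    pow_le_pow_left₀ (Real.exp_pos 1).le Real.exp_one_lt_d9.le 11
  have h4 : Real.exp (11 / 4) ^ 4 ≤ (16 : ℝ) ^ 4 := by
    rw [h2]
    refine h3.trans ?_
    norm_num
  exact (Real.exp_le_exp.mpr h1).trans (le_of_pow_le_pow_left₀ (by norm_num) (by norm_num) h4)

lemma bd_anti {T T' : ℝ} (h0 : 0 < T) (h : T ≤ T') : bd T' ≤ bd T := by
  have hu : Real.exp 1 ≤ Real.log (16 + T) := by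
    rw [Real.le_log_iff_exp_le (by linarith)]
    linarith [exp_exp_one]
  have hle : Real.log (16 + T) ≤ Real.log (16 + T') := Real.log_le_log (by linarith) (by linarith)
  have hu' : Real.exp 1 ≤ Real.log (16 + T') := hu.trans hle
  have h1 := Real.log_div_self_antitoneOn hu hu' hle
  have h2 : 0 ≤ Real.log (Real.log (16 + T')) / Real.log (16 + T') := by
    have he : (1 : ℝ) ≤ Real.exp 1 := by
      have := Real.add_one_le_exp (1 : ℝ)
      linarith
    exact div_nonneg (Real.log_nonneg (he.trans hu')) (by linarith)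
  exact pow_le_pow_left₀ h2 h1 3

/-- The lower bound in terms of a subfield `F` of the base field `k`. -/
theorem lowerF : ∃ c : ℝ, 0 < c ∧ ∀ (k L : Type) [Field k] [NumberField k] [Field L] [NumberField L]
    [Algebra k L] (S : Finset (k →+* ℂ)) (x : L) (s n : ℕ) (δ R : ℝ), x ≠ 0 → IsIntegral ℤ x →
    (∀ m : ℕ, 0 < m → x ^ m ≠ 1) → 1 ≤ R →
    (∀ τ : L →+* ℂ, τ.comp (algebraMap k L) ∉ S → ‖τ x‖ ≤ 1) → (∀ τ : L →+* ℂ, ‖τ x‖ ≤ R) →
    S.card ≤ s → finrank k L ≤ n → ∀ F : IntermediateField ℚ k,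
    (∀ σ ∈ S, ∀ σ' ∈ S, σ.comp (algebraMap F k) ≠ σ'.comp (algebraMap F k) →
      s * (n * finrank F k) ^ 2 * finrank ℚ F <
        pairDeg (σ.comp (algebraMap F k)) (σ'.comp (algebraMap F k))) → 0 < δ →
    (δ * finrank ℚ F) ^ finrank ℚ F ≤ |(discr F : ℝ)| →
    c * bd ((n * finrank F k : ℕ) / δ) ≤ (s * (n * finrank F k) : ℕ) * Real.log R := by
  classical
  obtain ⟨c, hc, h⟩ := lower
  refine ⟨c, hc, ?_⟩
  intro k L _ _ _ _ _ S x s n δ R hx0 hxi hroot hR hout hin hs hn F hS hδ hdisc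
  set S' : Finset (F →+* ℂ) := S.image fun σ => σ.comp (algebraMap F k) with hS'
  have htower : (algebraMap F L) = (algebraMap k L).comp (algebraMap F k) :=
    IsScalarTower.algebraMap_eq F k L
  refine h F L S' x s (n * finrank F k) δ R hx0 hxi hroot hR ?_ hin
    (Finset.card_image_le.trans hs) ?_ ?_ hδ hdisc
  · intro τ hτ
    refine hout τ fun hmem => hτ ?_
    rw [hS', Finset.mem_image]
    refine ⟨_, hmem, ?_⟩
    rw [htower, RingHom.comp_assoc]
  · have h1 : finrank F k * finrank k L = finrank F L := Module.finrank_mul_finrank F k L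
    rw [← h1, mul_comm]
    exact Nat.mul_le_mul_right _ hn
  · intro τ hτ τ' hτ' hne
    rw [hS', Finset.mem_image] at hτ hτ'
    obtain ⟨σ, hσ, rfl⟩ := hτ
    obtain ⟨σ', hσ', rfl⟩ := hτ'
    exact hS σ hσ σ' hσ' hne

end Pool.Agent.helper461_mg
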