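import Pool.Agent.helper461_mg.Gal
import Pool.Agent.H225R3.Marg5

/-!
# The index of the intersection of a Galois base field with the field of an expanded element
-/

set_option autoImplicit false

open Module IntermediateField

namespace Pool.Agent.helper461_mg

/-- degrees of intersection and compositum with a Galois subfield -/
lemma finrank_sup_inf {L : Type} [Field L] [NumberField L] (A M : IntermediateField ℚ L)
    [IsGalois ℚ A] :
    finrank ℚ A * finrank ℚ M ≤
      finrank ℚ (A ⊔ M : IntermediateField ℚ L) * finrank ℚ (A ⊓ M : IntermediateField ℚ L) := by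
  set B : IntermediateField ℚ L := A ⊓ M with hB
  have hA : B ≤ A := inf_le_left
  have hM : B ≤ M := inf_le_right
  have hAM : B ≤ A ⊔ M := hA.trans le_sup_left
  let A1 : IntermediateField B L := extendScalars hA
  let M1 : IntermediateField B L := extendScalars hM
  let C1 : IntermediateField B L := extendScalars hAM
  have hinf : A1 ⊓ M1 = ⊥ := by
    show extendScalars hA ⊓ extendScalars hM = ⊥
    rw [extendScalars_inf]
    exact IntermediateField.extendScalars_self B
  have hsup : A1 ⊔ M1 = C1 := by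
    show extendScalars hA ⊔ extendScalars hM = extendScalars hAM
    rw [extendScalars_sup]
  let eA : A ≃ₐ[ℚ] A1 :=
    { toFun := fun x => ⟨x.1, x.2⟩
      invFun := fun x => ⟨x.1, x.2⟩
      left_inv := fun _ => rfl
      right_inv := fun _ => rfl
      map_mul' := fun _ _ => rfl
      map_add' := fun _ _ => rfl
      commutes' := fun _ => rfl }
  let eM : M ≃ₐ[ℚ] M1 :=
    { toFun := fun x => ⟨x.1, x.2⟩
      invFun := fun x => ⟨x.1, x.2⟩
      left_inv := fun _ => rfl
      right_inv := fun _ => rfl
      map_mul' := fun _ _ => rfl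
      map_add' := fun _ _ => rfl
      commutes' := fun _ => rfl }
  let eC : (A ⊔ M : IntermediateField ℚ L) ≃ₐ[ℚ] C1 :=
    { toFun := fun x => ⟨x.1, x.2⟩
      invFun := fun x => ⟨x.1, x.2⟩
      left_inv := fun _ => rfl
      right_inv := fun _ => rfl
      map_mul' := fun _ _ => rfl
      map_add' := fun _ _ => rfl
      commutes' := fun _ => rfl }
  have i1 : IsGalois ℚ A1 := IsGalois.of_algEquiv eA
  have i2 : IsGalois B A1 := IsGalois.tower_top_of_isGalois ℚ B A1
  have i3 : FiniteDimensional B L := FiniteDimensional.right ℚ B L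
  have i4 : Module.Free B A1 := Module.Free.of_divisionRing B A1
  have i5 : Module.Free B M1 := Module.Free.of_divisionRing B M1
  have i6 : Module.Free B C1 := Module.Free.of_divisionRing B C1
  have i8 : Module.Free ℚ B := Module.Free.of_divisionRing ℚ B
  have hd : A1.LinearDisjoint M1 := LinearDisjoint.of_inf_eq_bot hinf
  have h1 := hd.finrank_sup
  rw [hsup] at h1
  have h5 : finrank ℚ B * finrank B A1 = finrank ℚ A := by
    rw [Module.finrank_mul_finrank ℚ B A1]
    exact eA.toLinearEquiv.finrank_eq.symm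
  have h6 : finrank ℚ B * finrank B M1 = finrank ℚ M := by
    rw [Module.finrank_mul_finrank ℚ B M1]
    exact eM.toLinearEquiv.finrank_eq.symm
  have h7 : finrank ℚ B * finrank B C1 = finrank ℚ (A ⊔ M : IntermediateField ℚ L) := by
    rw [Module.finrank_mul_finrank ℚ B C1]
    exact eC.toLinearEquiv.finrank_eq.symm
  rw [← h5, ← h6, ← h7, h1]
  exact le_of_eq (by ring)

/-- an embedding of the compositum of `k` and `M` is determined by its restrictions -/
lemma sup_card {k L : Type} [Field k] [NumberField k] [Field L] [NumberField L] [Algebra k L]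
    (S : Finset (k →+* ℂ)) (K0 M : IntermediateField ℚ L)
    (hK0 : ∀ y : L, y ∈ K0 ↔ ∃ a : k, algebraMap k L a = y) (τ0 : M →+* ℂ)
    (h : ∀ τ : L →+* ℂ, τ.comp (algebraMap M L) = τ0 → τ.comp (algebraMap k L) ∈ S) :
    finrank ℚ (K0 ⊔ M : IntermediateField ℚ L) ≤ finrank ℚ M * S.card := by
  classical
  set N : IntermediateField ℚ L := K0 ⊔ M with hN
  have hMN : M ≤ N := le_sup_right
  have hKN : K0 ≤ N := le_sup_left
  let ι : M →+* N := (IntermediateField.inclusion hMN).toRingHom
  letI : Algebra M N := ι.toAlgebra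
  haveI : IsScalarTower M N L := IsScalarTower.of_algebraMap_eq fun a => rfl
  let kN : k →+* N :=
    { toFun := fun a => ⟨algebraMap k L a, hKN ((hK0 _).mpr ⟨a, rfl⟩)⟩
      map_one' := Subtype.ext (map_one _)
      map_mul' := fun a b => Subtype.ext (map_mul _ a b)
      map_zero' := Subtype.ext (map_zero _)
      map_add' := fun a b => Subtype.ext (map_add _ a b) }
  have hcard := Pool.Agent.H225R3.Marg.natCard_ext M N τ0
  have hfin : finrank ℚ M * finrank M N = finrank ℚ N := Module.finrank_mul_finrank ℚ M N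
  rw [← hfin]
  refine Nat.mul_le_mul_left _ ?_
  rw [← hcard]
  have hmem : ∀ τ : {τ : N →+* ℂ // τ.comp (algebraMap M N) = τ0}, τ.1.comp kN ∈ S := by
    rintro ⟨τ, hτ⟩
    have hc := Pool.Agent.H225R3.Marg.natCard_ext N L τ
    have hpos : 0 < finrank N L := finrank_pos
    rw [← hc] at hpos
    obtain ⟨⟨τ', hτ'⟩⟩ := (Nat.card_pos_iff.mp hpos).1
    have h1 : τ'.comp (algebraMap M L) = τ0 := by
      rw [← hτ, ← hτ']
      rfl
    have h2 := h τ' h1
    have h3 : τ'.comp (algebraMap k L) = τ.comp kN := by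
      rw [← hτ']
      rfl
    rw [h3] at h2
    exact h2
  have hinj : Function.Injective fun τ : {τ : N →+* ℂ // τ.comp (algebraMap M N) = τ0} =>
      (⟨τ.1.comp kN, hmem τ⟩ : S) := by
    rintro ⟨τ, hτ⟩ ⟨τ', hτ'⟩ heq
    have he : τ.comp kN = τ'.comp kN := congrArg Subtype.val heq
    have he2 : τ.comp (algebraMap M N) = τ'.comp (algebraMap M N) := hτ.trans hτ'.symm
    apply Subtype.ext
    show τ = τ'
    let P : Subfield L := (RingHom.eqLocusField τ τ').map (algebraMap N L)
    let P' : IntermediateField ℚ L := P.toIntermediateField fun q => by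
      rw [eq_ratCast]
      exact SubfieldClass.ratCast_mem P q
    have hP : ∀ y : L, y ∈ P' ↔ ∃ z : N, τ z = τ' z ∧ (z : L) = y := by
      intro y
      show y ∈ P ↔ _
      rw [Subfield.mem_map]
      exact Iff.rfl
    have hM : M ≤ P' := by
      intro y hy
      rw [hP]
      exact ⟨ι ⟨y, hy⟩, RingHom.congr_fun he2 ⟨y, hy⟩, rfl⟩
    have hK : K0 ≤ P' := by
      intro y hy
      rw [hP]
      obtain ⟨a, rfl⟩ := (hK0 y).mp hy
      exact ⟨kN a, RingHom.congr_fun he a, rfl⟩
    have hNP : N ≤ P' := sup_le hK hM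
    ext z
    obtain ⟨w, hw1, hw2⟩ := (hP z.1).mp (hNP z.2)
    have : w = z := Subtype.ext hw2
    rw [← this]
    exact hw1
  have := Nat.card_le_card_of_injective _ hinj
  simpa using this

/-- subfields of a Galois number field and of the field of an expanded element -/
lemma galois_sub2 {k L : Type} [Field k] [NumberField k] [Field L] [NumberField L] [Algebra k L]
    [IsGalois ℚ k] (S : Finset (k →+* ℂ)) (M : IntermediateField ℚ L) (τ0 : M →+* ℂ)
    (h : ∀ τ : L →+* ℂ, τ.comp (algebraMap M L) = τ0 → τ.comp (algebraMap k L) ∈ S) :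
    ∃ (F : IntermediateField ℚ M) (F' : IntermediateField ℚ k), Nonempty (F ≃ₐ[ℚ] F') ∧
      finrank F M ≤ finrank k L ∧ finrank F' k ≤ S.card := by
  let f : k →ₐ[ℚ] L := IsScalarTower.toAlgHom ℚ k L
  let K0 : IntermediateField ℚ L := f.fieldRange
  let e0 : k ≃ₐ[ℚ] K0 := AlgEquiv.ofInjectiveField f
  have i0 : IsGalois ℚ K0 := IsGalois.of_algEquiv e0
  set B : IntermediateField ℚ L := K0 ⊓ M with hB
  have hBM : B ≤ M := inf_le_right
  have hBK : B ≤ K0 := inf_le_left
  let F : IntermediateField ℚ M := IntermediateField.restrict hBM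
  let F' : IntermediateField ℚ k := B.comap f
  let e1 : B ≃ₐ[ℚ] F := IntermediateField.restrictAlgEquiv hBM
  let g : F' →ₐ[ℚ] B := (f.comp F'.val).codRestrict B.toSubalgebra (fun x => x.2)
  have hg : Function.Bijective g := by
    constructor
    · exact g.toRingHom.injective
    · intro b
      obtain ⟨a, ha⟩ := hBK b.2
      have ha' : f a = b.1 := ha
      refine ⟨⟨a, ?_⟩, ?_⟩
      · show f a ∈ B
        rw [ha']
        exact b.2
      · exact Subtype.ext ha'
  let e2 : F' ≃ₐ[ℚ] B := AlgEquiv.ofBijective g hg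
  have d1 : finrank ℚ F = finrank ℚ B := e1.toLinearEquiv.finrank_eq.symm
  have d2 : finrank ℚ F' = finrank ℚ B := e2.toLinearEquiv.finrank_eq
  have d3 : finrank ℚ k = finrank ℚ K0 := e0.toLinearEquiv.finrank_eq
  have key := finrank_inf K0 M
  rw [← hB, ← d3] at key
  have key2 := finrank_sup_inf K0 M
  rw [← hB, ← d3] at key2
  have key3 := sup_card S K0 M (fun y => Iff.rfl) τ0 h
  have h1 : finrank ℚ F * finrank F M = finrank ℚ M := Module.finrank_mul_finrank ℚ F M
  have h2 : finrank ℚ k * finrank k L = finrank ℚ L := Module.finrank_mul_finrank ℚ k L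
  have h3 : finrank ℚ F' * finrank F' k = finrank ℚ k := Module.finrank_mul_finrank ℚ F' k
  have p1 : 0 < finrank ℚ B := finrank_pos
  have p2 : 0 < finrank ℚ k := finrank_pos
  have p3 : 0 < finrank ℚ M := finrank_pos
  refine ⟨F, F', ⟨e1.symm.trans e2.symm⟩, ?_, ?_⟩
  · refine Nat.le_of_mul_le_mul_left ?_ (Nat.mul_pos p2 p1)
    calc finrank ℚ k * finrank ℚ B * finrank F M
        = finrank ℚ k * (finrank ℚ F * finrank F M) := by rw [d1]; ring
      _ = finrank ℚ k * finrank ℚ M := by rw [h1]
      _ ≤ finrank ℚ L * finrank ℚ B := key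
      _ = finrank ℚ k * finrank ℚ B * finrank k L := by rw [← h2]; ring
  · refine Nat.le_of_mul_le_mul_left ?_ (Nat.mul_pos p3 p1)
    calc finrank ℚ M * finrank ℚ B * finrank F' k
        = (finrank ℚ F' * finrank F' k) * finrank ℚ M := by rw [d2]; ring
      _ = finrank ℚ k * finrank ℚ M := by rw [h3]
      _ ≤ finrank ℚ (K0 ⊔ M : IntermediateField ℚ L) * finrank ℚ B := key2
      _ ≤ (finrank ℚ M * S.card) * finrank ℚ B := Nat.mul_le_mul_right _ key3
      _ = finrank ℚ M * finrank ℚ B * S.card := by ring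

end Pool.Agent.helper461_mg
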