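import Pool.Agent.helper461_mg.Disc2
import Pool.Agent.helper461_mg.Gal2

/-!
# The gap over number fields with large discriminants
-/

set_option autoImplicit false

open Finset Polynomial Module NumberField IntermediateField

namespace Pool.Agent.helper461_mg

open Pool.Agent.H388SL Pool.Agent.Y399.RD Pool.Agent.H225R3.Marg Pool.Agent.Y399.MG

section

variable {k L : Type} [Field k] [NumberField k] [Field L] [NumberField L] [Algebra k L]

/-- an embedding of the field of a power of an eigenvalue, with all extensions over `S` -/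
lemma exists_tau (S : Finset (k →+* ℂ)) (x : L) (hx0 : x ≠ 0) (hxi : IsIntegral ℤ x)
    (hroot : ∀ m : ℕ, 0 < m → x ^ m ≠ 1)
    (hout : ∀ τ : L →+* ℂ, τ.comp (algebraMap k L) ∉ S → ‖τ x‖ ≤ 1)
    (j : ℕ) (hj : 0 < j) : ∃ τ0 : ℚ⟮x ^ j⟯ →+* ℂ, ∀ τ : L →+* ℂ,
      τ.comp (algebraMap ℚ⟮x ^ j⟯ L) = τ0 → τ.comp (algebraMap k L) ∈ S := by
  classical
  set E : IntermediateField ℚ L := ℚ⟮x ^ j⟯ with hE
  let xE : E := ⟨x ^ j, IntermediateField.mem_adjoin_simple_self ℚ (x ^ j)⟩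
  have hxE : (algebraMap E L) xE = x ^ j := rfl
  have hex : ∃ τ0 : E →+* ℂ, 1 < ‖τ0 xE‖ := by
    by_contra hcon
    push Not at hcon
    have hxE0 : xE ≠ 0 := by
      intro h
      have h1 : (algebraMap E L) xE = 0 := by rw [h, map_zero]
      rw [hxE] at h1
      exact hx0 (pow_eq_zero_iff hj.ne' |>.mp h1)
    have hxEi : IsIntegral ℤ xE := by
      have h1 : IsIntegral ℤ ((algebraMap E L) xE) := by rw [hxE]; exact hxi.pow j
      exact (isIntegral_algebraMap_iff (algebraMap E L).injective).mp h1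
    obtain ⟨m, hm, h⟩ := NumberField.Embeddings.pow_eq_one_of_norm_le_one E ℂ hxE0 hxEi hcon
    apply hroot (j * m) (Nat.mul_pos hj hm)
    have h1 : (algebraMap E L) (xE ^ m) = 1 := by rw [h, map_one]
    rw [map_pow, hxE, ← pow_mul] at h1
    exact h1
  obtain ⟨τ0, hτ0⟩ := hex
  refine ⟨τ0, fun τ hτ => ?_⟩
  by_contra hnot
  have h1 := hout τ hnot
  have h2 : τ (x ^ j) = τ0 xE := by
    rw [← hτ]; rfl
  rw [← h2, map_pow, norm_pow] at hτ0
  exact absurd hτ0 (not_lt.mpr (pow_le_one₀ (norm_nonneg _) h1))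

/-- The transfer principle, with the information on the embeddings. -/
theorem transferG (S : Finset (k →+* ℂ)) (x : L) (s n : ℕ) (R : ℝ) (hx0 : x ≠ 0)
    (hxi : IsIntegral ℤ x) (hroot : ∀ m : ℕ, 0 < m → x ^ m ≠ 1) (hR : 1 ≤ R)
    (hout : ∀ τ : L →+* ℂ, τ.comp (algebraMap k L) ∉ S → ‖τ x‖ ≤ 1)
    (hin : ∀ τ : L →+* ℂ, ‖τ x‖ ≤ R) (hs : S.card ≤ s) (hn : finrank k L ≤ n) :
    ∃ (M : IntermediateField ℚ L) (β : 𝓞 M), β ≠ 0 ∧
      (∀ m : ℕ, 0 < m → β ^ m ≠ 1) ∧ (∀ i : ℕ, 0 < i → ℚ⟮(β : M) ^ i⟯ = ⊤) ∧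
      lam (β : M) ≤ (s * n : ℕ) * Real.log R ∧
      ∃ τ0 : M →+* ℂ, ∀ τ : L →+* ℂ, τ.comp (algebraMap M L) = τ0 →
        τ.comp (algebraMap k L) ∈ S := by
  classical
  obtain ⟨j, hj, hmin⟩ := exists_min x
  set M : IntermediateField ℚ L := ℚ⟮x ^ j⟯ with hM
  obtain ⟨τ0, hτ0⟩ : ∃ τ0 : M →+* ℂ, ∀ τ : L →+* ℂ, τ.comp (algebraMap M L) = τ0 →
      τ.comp (algebraMap k L) ∈ S := exists_tau S x hx0 hxi hroot hout j hj
  haveI : FiniteDimensional M L := FiniteDimensional.right ℚ M L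
  have hML : 0 < finrank M L := finrank_pos
  have hsn : S.card * finrank k L ≤ s * n := Nat.mul_le_mul hs hn
  let z : M := ⟨x ^ j, IntermediateField.mem_adjoin_simple_self ℚ (x ^ j)⟩
  have hz : algebraMap M L z = x ^ j := rfl
  set β : M := Algebra.norm M x with hβ
  have hβj : β ^ j = z ^ finrank M L := by
    rw [hβ, ← map_pow, ← hz, Algebra.norm_algebraMap]
  have hβi : IsIntegral ℤ β := Algebra.isIntegral_norm M hxi
  have hβ0 : β ≠ 0 := by
    rw [hβ]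
    exact Algebra.norm_ne_zero_iff.mpr hx0
  have hβroot : ∀ m : ℕ, 0 < m → β ^ m ≠ 1 := by
    intro m hm h
    apply hroot (j * (finrank M L * m)) (Nat.mul_pos hj (Nat.mul_pos hML hm))
    have h1 : z ^ (finrank M L * m) = 1 := by
      rw [pow_mul, ← hβj, ← pow_mul, mul_comm j m, pow_mul, h, one_pow]
    have h2 : algebraMap M L (z ^ (finrank M L * m)) = 1 := by rw [h1, map_one]
    rwa [map_pow, hz, ← pow_mul] at h2
  have hgen : ∀ i : ℕ, 0 < i → ℚ⟮β ^ i⟯ = ⊤ := by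
    intro i hi
    set N : IntermediateField ℚ M := ℚ⟮β ^ i⟯ with hN
    have h1 : z ^ (finrank M L * i) ∈ N := by
      rw [pow_mul, ← hβj, ← pow_mul, mul_comm j i, pow_mul]
      exact pow_mem (IntermediateField.mem_adjoin_simple_self ℚ (β ^ i)) j
    have h2 : ℚ⟮x ^ (j * (finrank M L * i))⟯ ≤ IntermediateField.lift N := by
      rw [IntermediateField.adjoin_simple_le_iff, pow_mul]
      exact (IntermediateField.mem_lift (z ^ (finrank M L * i))).mpr h1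
    rw [hmin _ (Nat.mul_pos hML hi)] at h2
    rw [eq_top_iff]
    intro y _
    exact (IntermediateField.mem_lift y).mp (h2 y.2)
  refine ⟨M, ⟨β, hβi⟩, ?_, ?_, hgen, ?_, τ0, hτ0⟩
  · intro h
    exact hβ0 (congrArg Subtype.val h)
  · intro m hm h
    apply hβroot m hm
    have := congrArg (algebraMap (𝓞 M) M) h
    rw [map_pow, map_one] at this
    exact this
  · refine (lam_norm_le M S x R hR hout hin).trans ?_
    refine mul_le_mul_of_nonneg_right ?_ (Real.log_nonneg hR)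
    exact_mod_cast hsn

end

/-- **The lower bound for Galois base fields.** -/
theorem lowerG : ∃ c : ℝ, 0 < c ∧ ∀ (k L : Type) [Field k] [NumberField k] [Field L] [NumberField L]
    [Algebra k L] (S : Finset (k →+* ℂ)) (x : L) (s n : ℕ) (δ R : ℝ), x ≠ 0 → IsIntegral ℤ x →
    (∀ m : ℕ, 0 < m → x ^ m ≠ 1) → 1 ≤ R →
    (∀ τ : L →+* ℂ, τ.comp (algebraMap k L) ∉ S → ‖τ x‖ ≤ 1) → (∀ τ : L →+* ℂ, ‖τ x‖ ≤ R) →
    S.card ≤ s → finrank k L ≤ n → IsGalois ℚ k → 0 < δ →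
    (∀ F : IntermediateField ℚ k, finrank F k ≤ S.card →
      (δ * finrank ℚ F) ^ finrank ℚ F ≤ |(discr F : ℝ)|) →
    c * bd (n / δ) ≤ (s * n : ℕ) * Real.log R := by
  obtain ⟨c, hc, hfield⟩ := field_bound
  refine ⟨c, hc, ?_⟩
  intro k L _ _ _ _ _ S x s n δ R hx0 hxi hroot hR hout hin hs hn hG hδ hdisc
  obtain ⟨M, β, h2, h3, h4, h5, τ0, hτ0⟩ := transferG S x s n R hx0 hxi hroot hR hout hin hs hn
  obtain ⟨F, F', ⟨e⟩, h6, h7⟩ := galois_sub2 (k := k) S M τ0 hτ0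
  have hF := disc_equiv e δ (hdisc F' h7)
  have h8 := log_disc F n δ hδ (h6.trans hn) hF
  have hn0 : 0 < n := lt_of_lt_of_le finrank_pos hn
  have hT0 : (0 : ℝ) < n / δ := by
    have : (0 : ℝ) < n := by exact_mod_cast hn0
    positivity
  have hgen : ℚ⟮(β : M)⟯ = ⊤ := by
    have := h4 1 one_pos
    rwa [pow_one] at this
  have hLD : finrank ℚ M * Real.log (finrank ℚ M / (n / δ)) ≤ LD (β : M) :=
    h8.trans (log_discr_le β hgen)
  have hβ0 : (β : M) ≠ 0 := fun h => h2 (RingOfIntegers.coe_eq_zero_iff.mp h)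
  have hβr : ∀ m : ℕ, 0 < m → (β : M) ^ m ≠ 1 := fun m hm h =>
    h3 m hm (RingOfIntegers.ext (by simpa using h))
  have h9 := hfield M (β : M) β.isIntegral_coe hβ0 hβr
    (fun i hi => cinj_of_adjoin (h4 i hi)) (n / δ) hT0 hLD
  exact h9.trans h5

/-- The condition on the number field. -/
def Large2 (δ : ℝ) (s n : ℕ) (k : Type) [Field k] [NumberField k] (S : Finset (k →+* ℂ)) : Prop :=
  (∃ F : IntermediateField ℚ k, finrank F k ≤ s ∧
    (δ * finrank ℚ F) ^ finrank ℚ F ≤ |(discr F : ℝ)| ∧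
    ∀ σ ∈ S, ∀ σ' ∈ S, σ.comp (algebraMap F k) ≠ σ'.comp (algebraMap F k) →
      s * (n * finrank F k) ^ 2 * finrank ℚ F <
        pairDeg (σ.comp (algebraMap F k)) (σ'.comp (algebraMap F k))) ∨
  (IsGalois ℚ k ∧ ∀ F : IntermediateField ℚ k, finrank F k ≤ S.card →
    (δ * finrank ℚ F) ^ finrank ℚ F ≤ |(discr F : ℝ)|)

theorem gapD2 : ∃ c : ℝ, 0 < c ∧ ∀ (k : Type) [Field k] [NumberField k] (n s : ℕ)
    (S : Finset (k →+* ℂ)) (A : Matrix (Fin n) (Fin n) (𝓞 k)) (δ : ℝ), 0 < δ → S.card ≤ s →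
    Large2 δ s n k S → IsUnit A →
    (∀ σ : k →+* ℂ, σ ∉ S → ∀ l : ℂ, ((emb σ).mapMatrix A).charpoly.IsRoot l → ‖l‖ ≤ 1) →
    (∀ N : ℕ, 0 < N → ¬ IsNilpotent (A ^ N - 1)) →
    ∃ σ ∈ S, ∃ l : ℂ, ((emb σ).mapMatrix A).charpoly.IsRoot l ∧ 1 < ‖l‖ ∧
      c * bd ((s * n : ℕ) / δ) ≤ (s * (n * s) : ℕ) * Real.log ‖l‖ := by
  obtain ⟨c1, hc1, h1⟩ := lowerF
  obtain ⟨c2, hc2, h2⟩ := lowerG
  refine ⟨min c1 c2, lt_min hc1 hc2, ?_⟩
  intro k _ _ n s S A δ hδ hs hL hA hout hnil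
  refine gap_of k n S A
    (fun R => min c1 c2 * bd ((s * n : ℕ) / δ) ≤ (s * (n * s) : ℕ) * Real.log R) ?_
    hA hout hnil
  intro L _ _ _ x R hx0 hxi hroot hR hout' hin hdeg
  have hn0 : 0 < n := lt_of_lt_of_le finrank_pos hdeg
  have hlogR := Real.log_nonneg hR
  have hmin : 0 < min c1 c2 := lt_min hc1 hc2
  -- comparison of the parameters
  have comp : ∀ (c : ℝ) (m r : ℕ), min c1 c2 ≤ c → 0 < m → m ≤ s * n → r ≤ s * (n * s) →
      c * bd ((m : ℝ) / δ) ≤ (r : ℝ) * Real.log R →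
      min c1 c2 * bd ((s * n : ℕ) / δ) ≤ (s * (n * s) : ℕ) * Real.log R := by
    intro c m r hc hm hmle hr h
    have hmR : (0 : ℝ) < m := by exact_mod_cast hm
    have hm0 : (0 : ℝ) < (m : ℝ) / δ := by positivity
    have hle : (m : ℝ) / δ ≤ ((s * n : ℕ) : ℝ) / δ :=
      div_le_div_of_nonneg_right (by exact_mod_cast hmle) hδ.le
    have h3 : bd (((s * n : ℕ) : ℝ) / δ) ≤ bd ((m : ℝ) / δ) := bd_anti hm0 hle
    have h4 : 0 < bd ((m : ℝ) / δ) := bd_pos hm0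
    calc min c1 c2 * bd (((s * n : ℕ) : ℝ) / δ) ≤ min c1 c2 * bd ((m : ℝ) / δ) :=
          mul_le_mul_of_nonneg_left h3 hmin.le
      _ ≤ c * bd ((m : ℝ) / δ) := mul_le_mul_of_nonneg_right hc h4.le
      _ ≤ (r : ℝ) * Real.log R := h
      _ ≤ ((s * (n * s) : ℕ) : ℝ) * Real.log R :=
          mul_le_mul_of_nonneg_right (by exact_mod_cast hr) hlogR
  rcases hL with ⟨F, hFs, hd, hp⟩ | ⟨hG, hd⟩
  · have hr0 : 0 < finrank F k := finrank_pos
    refine comp c1 (n * finrank F k) (s * (n * finrank F k)) (min_le_left _ _)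
      (Nat.mul_pos hn0 hr0) ?_ ?_
      (h1 k L S x s n δ R hx0 hxi hroot hR hout' hin hs hdeg F hp hδ hd)
    · rw [mul_comm s n]
      exact Nat.mul_le_mul_left _ hFs
    · exact Nat.mul_le_mul_left _ (Nat.mul_le_mul_left _ hFs)
  · have h3 := h2 k L S x s n δ R hx0 hxi hroot hR hout' hin hs hdeg hG hδ hd
    rcases Nat.eq_zero_or_pos s with hs0 | hs0
    · exfalso
      have hT0 : (0 : ℝ) < n / δ := by
        have : (0 : ℝ) < n := by exact_mod_cast hn0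
        positivity
      have h4 := mul_pos hc2 (bd_pos hT0)
      rw [hs0, zero_mul, Nat.cast_zero, zero_mul] at h3
      linarith
    · exact comp c2 n (s * n) (min_le_right _ _) hn0 (Nat.le_mul_of_pos_left _ hs0)
        (Nat.mul_le_mul_left _ (Nat.le_mul_of_pos_right _ hs0)) h3

end Pool.Agent.helper461_mg
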