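import Pool.Agent.helper461_mg.Disc3

/-!
# The gap over number fields with large discriminants, with a bound that grows with the discriminant
-/

set_option autoImplicit false

open Finset Polynomial Module NumberField IntermediateField

namespace Pool.Agent.helper461_mg

open Pool.Agent.H388SL Pool.Agent.Y399.RD Pool.Agent.H225R3.Marg Pool.Agent.Y399.MG

/-- the lower bound; it is of order `(log (1 / T)) / 2` for small `T` -/
noncomputable def bd2 (c T : ℝ) : ℝ := max (c * bd T) (-(1 + Real.log T) / 2)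

lemma bd2_pos {c T : ℝ} (hc : 0 < c) (hT : 0 < T) : 0 < bd2 c T :=
  lt_of_lt_of_le (mul_pos hc (bd_pos hT)) (le_max_left _ _)

lemma bd2_anti {c c' T T' : ℝ} (hc : 0 < c) (hcc : c ≤ c') (h0 : 0 < T) (h : T ≤ T') :
    bd2 c T' ≤ bd2 c' T := by
  refine max_le_max ?_ ?_
  · exact (mul_le_mul_of_nonneg_left (bd_anti h0 h) hc.le).trans
      (mul_le_mul_of_nonneg_right hcc (bd_pos h0).le)
  · have := Real.log_le_log h0 h
    linarith

/-- the bound for number fields, with Mahler's inequality -/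
theorem field_bound2 : ∃ c : ℝ, 0 < c ∧ ∀ (K : Type) [Field K] [NumberField K] (α : K),
    IsIntegral ℤ α → α ≠ 0 → (∀ n : ℕ, 0 < n → α ^ n ≠ 1) → (∀ n : ℕ, 0 < n → CInj (α ^ n)) →
    ∀ T : ℝ, 0 < T → finrank ℚ K * Real.log (finrank ℚ K / T) ≤ LD α → bd2 c T ≤ lam α := by
  obtain ⟨c, hc, hfield⟩ := field_bound
  refine ⟨c, hc, ?_⟩
  intro K _ _ α hα h0 hroot hcinj T hT hLD
  refine max_le (hfield K α hα h0 hroot hcinj T hT hLD) ?_
  have hd : (1 : ℝ) ≤ finrank ℚ K := by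
    exact_mod_cast (finrank_pos : 0 < finrank ℚ K)
  have hd0 : (0 : ℝ) < finrank ℚ K := by linarith
  have hc1 : CInj α := by
    have := hcinj 1 one_pos
    rwa [pow_one] at this
  have h1 := dob_disc hα h0 hroot hc1 ∅ (by simp) (by simp) (A := 1) zero_le_one hd
    (Λ := Real.log (finrank ℚ K / T)) hLD
  simp only [Finset.sum_empty, Finset.card_empty, Nat.cast_zero, mul_zero, add_zero, one_pow,
    mul_one, zero_add, one_mul] at h1
  rw [Real.log_div hd0.ne' hT.ne', div_self hd0.ne'] at h1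
  linarith

lemma fin_bound {c : ℝ} (hfield : ∀ (K : Type) [Field K] [NumberField K] (α : K),
    IsIntegral ℤ α → α ≠ 0 → (∀ n : ℕ, 0 < n → α ^ n ≠ 1) → (∀ n : ℕ, 0 < n → CInj (α ^ n)) →
    ∀ T : ℝ, 0 < T → finrank ℚ K * Real.log (finrank ℚ K / T) ≤ LD α → bd2 c T ≤ lam α)
    {M : Type} [Field M] [NumberField M] (β : 𝓞 M) (h2 : β ≠ 0)
    (h3 : ∀ m : ℕ, 0 < m → β ^ m ≠ 1) (h4 : ∀ i : ℕ, 0 < i → ℚ⟮(β : M) ^ i⟯ = ⊤)
    (F : IntermediateField ℚ M) (n : ℕ) (δ : ℝ) (hδ : 0 < δ) (hF : finrank F M ≤ n)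
    (hd : (δ * finrank ℚ F) ^ finrank ℚ F ≤ |(discr F : ℝ)|) :
    bd2 c (n / δ) ≤ lam (β : M) := by
  have h8 := log_disc F n δ hδ hF hd
  have hn0 : 0 < n := lt_of_lt_of_le finrank_pos hF
  have hT0 : (0 : ℝ) < n / δ := by
    have : (0 : ℝ) < n := by exact_mod_cast hn0
    positivity
  have hgen : ℚ⟮(β : M)⟯ = ⊤ := by
    have := h4 1 one_pos
    rwa [pow_one] at this
  have hLD : finrank ℚ M * Real.log (finrank ℚ M / (n / δ)) ≤ LD (β : M) :=
    h8.trans (log_discr_le β hgen)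
  have hβ0 : (β : M) ≠ 0 := fun h => h2 (RingOfIntegers.coe_eq_zero_iff.mp h)
  have hβr : ∀ m : ℕ, 0 < m → (β : M) ^ m ≠ 1 := fun m hm h =>
    h3 m hm (RingOfIntegers.ext (by simpa using h))
  exact hfield M (β : M) β.isIntegral_coe hβ0 hβr
    (fun i hi => cinj_of_adjoin (h4 i hi)) (n / δ) hT0 hLD

/-- a subfield of the base field, on which the noncompact embeddings agree or are independent -/
lemma base_sub {k L : Type} [Field k] [NumberField k] [Field L] [NumberField L] [Algebra k L]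
    (S : Finset (k →+* ℂ)) (M : IntermediateField ℚ L) (τ0 : M →+* ℂ)
    (h : ∀ τ : L →+* ℂ, τ.comp (algebraMap M L) = τ0 → τ.comp (algebraMap k L) ∈ S)
    (s n : ℕ) (hs : S.card ≤ s) (hn : finrank k L ≤ n) (F : IntermediateField ℚ k)
    (hS : ∀ σ ∈ S, ∀ σ' ∈ S, σ.comp (algebraMap F k) ≠ σ'.comp (algebraMap F k) →
      s * n ^ 2 * finrank ℚ k <
        pairDeg (σ.comp (algebraMap F k)) (σ'.comp (algebraMap F k))) :
    ∃ F1 : IntermediateField ℚ M, Nonempty (F1 ≃ₐ[ℚ] F) ∧ finrank F1 M ≤ n * finrank F k := by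
  have hL : finrank ℚ k * finrank k L = finrank ℚ L := Module.finrank_mul_finrank ℚ k L
  have hML : finrank ℚ M * finrank M L = finrank ℚ L := Module.finrank_mul_finrank ℚ M L
  have hmem : ∀ a : F, algebraMap k L (a : k) ∈ M := by
    intro a
    by_contra hnot
    letI : Algebra M ℂ := τ0.toAlgebra
    have hag : ¬ ∀ φ ψ : L →ₐ[M] ℂ, φ (algebraMap k L (a : k)) = ψ (algebraMap k L (a : k)) := by
      intro hh
      obtain ⟨b, hb⟩ := mem_of_agree (algebraMap k L (a : k)) hh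
      apply hnot
      rw [← hb]
      exact b.2
    push Not at hag
    obtain ⟨φ, ψ, hne⟩ := hag
    have hφ : (φ : L →+* ℂ).comp (algebraMap M L) = τ0 := by
      ext e
      exact φ.commutes e
    have hψ : (ψ : L →+* ℂ).comp (algebraMap M L) = τ0 := by
      ext e
      exact ψ.commutes e
    have h1 := hS _ (h _ hφ) _ (h _ hψ) (fun hh => hne (RingHom.congr_fun hh a))
    have h2 := pairDeg_le (k := F) M (φ : L →+* ℂ) (ψ : L →+* ℂ) (hφ.trans hψ.symm)
    have h3 := finrank_le_of_expand S M τ0 h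
    have h4 : finrank M L ≤ s * n := h3.trans (Nat.mul_le_mul hs hn)
    have h7 : finrank ℚ M * (finrank M L * finrank M L) ≤ s * n ^ 2 * finrank ℚ k := by
      calc finrank ℚ M * (finrank M L * finrank M L)
          = (finrank ℚ M * finrank M L) * finrank M L := by ring
        _ = (finrank ℚ k * finrank k L) * finrank M L := by rw [hML, hL]
        _ ≤ (finrank ℚ k * n) * (s * n) := Nat.mul_le_mul (Nat.mul_le_mul_left _ hn) h4
        _ = s * n ^ 2 * finrank ℚ k := by ring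
    exact absurd (h1.trans_le (h2.trans h7)) (lt_irrefl _)
  let f : k →ₐ[ℚ] L := IsScalarTower.toAlgHom ℚ k L
  let FL : IntermediateField ℚ L := F.map f
  have hFM : FL ≤ M := by
    rintro y ⟨a, ha, rfl⟩
    exact hmem ⟨a, ha⟩
  let F1 : IntermediateField ℚ M := IntermediateField.restrict hFM
  let e1 : FL ≃ₐ[ℚ] F1 := IntermediateField.restrictAlgEquiv hFM
  let e2 : F ≃ₐ[ℚ] FL := F.equivMap f
  refine ⟨F1, ⟨e1.symm.trans e2.symm⟩, ?_⟩
  have d1 : finrank ℚ F1 = finrank ℚ F := (e1.symm.trans e2.symm).toLinearEquiv.finrank_eq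
  have h1 : finrank ℚ F1 * finrank F1 M = finrank ℚ M := Module.finrank_mul_finrank ℚ F1 M
  have h3 : finrank ℚ F * finrank F k = finrank ℚ k := Module.finrank_mul_finrank ℚ F k
  have p1 : 0 < finrank ℚ F := finrank_pos
  have p2 : 0 < finrank M L := finrank_pos
  refine Nat.le_of_mul_le_mul_left ?_ p1
  calc finrank ℚ F * finrank F1 M = finrank ℚ M := by rw [← d1, h1]
    _ ≤ finrank ℚ M * finrank M L := Nat.le_mul_of_pos_right _ p2
    _ = finrank ℚ F * finrank F k * finrank k L := by rw [hML, ← hL, h3]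
    _ ≤ finrank ℚ F * finrank F k * n := Nat.mul_le_mul_left _ hn
    _ = finrank ℚ F * (n * finrank F k) := by ring

/-- The condition on the number field. -/
def Large3 (δ : ℝ) (s n : ℕ) (k : Type) [Field k] [NumberField k] (S : Finset (k →+* ℂ)) : Prop :=
  (∃ F : IntermediateField ℚ k, finrank F k ≤ s ∧
    (δ * finrank ℚ F) ^ finrank ℚ F ≤ |(discr F : ℝ)| ∧
    ∀ σ ∈ S, ∀ σ' ∈ S, σ.comp (algebraMap F k) ≠ σ'.comp (algebraMap F k) →
      s * n ^ 2 * finrank ℚ k <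
        pairDeg (σ.comp (algebraMap F k)) (σ'.comp (algebraMap F k))) ∨
  (IsGalois ℚ k ∧ ∀ F : IntermediateField ℚ k, finrank F k ≤ S.card →
    (δ * finrank ℚ F) ^ finrank ℚ F ≤ |(discr F : ℝ)|)

theorem gapD3 : ∃ c : ℝ, 0 < c ∧ ∀ (k : Type) [Field k] [NumberField k] (n s : ℕ)
    (S : Finset (k →+* ℂ)) (A : Matrix (Fin n) (Fin n) (𝓞 k)) (δ : ℝ), 0 < δ → S.card ≤ s →
    0 < s → Large3 δ s n k S → IsUnit A →
    (∀ σ : k →+* ℂ, σ ∉ S → ∀ l : ℂ, ((emb σ).mapMatrix A).charpoly.IsRoot l → ‖l‖ ≤ 1) →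
    (∀ N : ℕ, 0 < N → ¬ IsNilpotent (A ^ N - 1)) →
    ∃ σ ∈ S, ∃ l : ℂ, ((emb σ).mapMatrix A).charpoly.IsRoot l ∧ 1 < ‖l‖ ∧
      bd2 c ((s * n : ℕ) / δ) ≤ (s * n : ℕ) * Real.log ‖l‖ := by
  obtain ⟨c, hc, hfield⟩ := field_bound2
  refine ⟨c, hc, ?_⟩
  intro k _ _ n s S A δ hδ hs hs0 hL hA hout hnil
  refine gap_of k n S A (fun R => bd2 c ((s * n : ℕ) / δ) ≤ (s * n : ℕ) * Real.log R) ?_
    hA hout hnil
  intro L _ _ _ x R hx0 hxi hroot hR hout' hin hdeg
  obtain ⟨M, β, h2, h3, h4, h5, τ0, hτ0⟩ := transferG S x s n R hx0 hxi hroot hR hout' hin hs hdeg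
  refine le_trans ?_ h5
  have hn0 : 0 < n := lt_of_lt_of_le finrank_pos hdeg
  have comp : ∀ m : ℕ, 0 < m → m ≤ s * n → bd2 c ((s * n : ℕ) / δ) ≤ bd2 c ((m : ℝ) / δ) := by
    intro m hm hmle
    have hmR : (0 : ℝ) < m := by exact_mod_cast hm
    exact bd2_anti hc le_rfl (by positivity)
      (div_le_div_of_nonneg_right (by exact_mod_cast hmle) hδ.le)
  rcases hL with ⟨F, hFs, hd, hp⟩ | ⟨hG, hd⟩
  · obtain ⟨F1, ⟨e⟩, h6⟩ := base_sub S M τ0 hτ0 s n hs hdeg F hp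
    refine (comp (n * finrank F k) (Nat.mul_pos hn0 finrank_pos) ?_).trans
      (fin_bound hfield β h2 h3 h4 F1 (n * finrank F k) δ hδ h6 (disc_equiv e δ hd))
    rw [mul_comm s n]
    exact Nat.mul_le_mul_left _ hFs
  · obtain ⟨F, F', ⟨e⟩, h6, h7⟩ := galois_sub2 (k := k) S M τ0 hτ0
    exact (comp n hn0 (Nat.le_mul_of_pos_left _ hs0)).trans
      (fin_bound hfield β h2 h3 h4 F n δ hδ (h6.trans hdeg) (disc_equiv e δ (hd F' h7)))

end Pool.Agent.helper461_mg
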